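import Mathlib

namespace Pool.Agent.Results.MP_c611ff_co.MaxDegreeTwo

/-- A geometric graph: a finite set of points of the plane together with a simple graph on
these points; its edges are the straight segments between adjacent points. -/
structure GeomGraph where
  /-- the vertices -/
  V : Finset (ℝ × ℝ)
  /-- the edges -/
  G : SimpleGraph V

/-- The number of edges of a geometric graph. -/
noncomputable def GeomGraph.numEdges (U : GeomGraph) : ℕ := U.G.edgeSet.ncard

/-- The map `φ` is a crossing-free straight-line drawing of `G`: it is injective, and the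
segments of two different edges meet only at common endpoints. -/
def IsDrawing {W : Type} (G : SimpleGraph W) (φ : W → ℝ × ℝ) : Prop :=
  Function.Injective φ ∧
  ∀ a b c d : W, G.Adj a b → G.Adj c d → s(a, b) ≠ s(c, d) →
    ∀ q : ℝ × ℝ, q ∈ segment ℝ (φ a) (φ b) → q ∈ segment ℝ (φ c) (φ d) →
      ∃ w : W, (w = a ∨ w = b) ∧ (w = c ∨ w = d) ∧ q = φ w

/-- The graph `G` embeds in the geometric graph `U`. -/
def Embeds {W : Type} (G : SimpleGraph W) (U : GeomGraph) : Prop :=
  ∃ φ : W → U.V, (∀ a b, G.Adj a b → U.G.Adj (φ a) (φ b)) ∧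
    IsDrawing G (fun w => (φ w : ℝ × ℝ))

/-- The class of planar graphs on `n` vertices of maximum degree at most `Δ`; planar means
that a crossing-free straight-line drawing exists. -/
def PlanarDeg (Δ n : ℕ) (G : SimpleGraph (Fin n)) : Prop :=
  (∃ φ : Fin n → ℝ × ℝ, IsDrawing G φ) ∧ ∀ v, (G.neighborSet v).ncard ≤ Δ

/-- The geometric graph `U` is universal for that class. -/
def Universal (Δ n : ℕ) (U : GeomGraph) : Prop :=
  ∀ G : SimpleGraph (Fin n), PlanarDeg Δ n G → Embeds G U

/-- The least number of edges of a geometric graph universal for the class. -/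
noncomputable def e (Δ n : ℕ) : ℕ :=
  sInf {m : ℕ | ∃ U : GeomGraph, Universal Δ n U ∧ U.numEdges = m}

/-! ### Orders of bandwidth two -/

section Order

variable {V : Type} [Finite V] (G : SimpleGraph V)

/-- number of neighbours outside a list -/
noncomputable def out (L : List V) (v : V) : ℕ := {w | G.Adj v w ∧ w ∉ L}.ncard

/-- every vertex of the list has all its later neighbours within distance two -/
def Ok : List V → Prop
  | [] => True
  | x :: t => Ok t ∧ x ∉ t ∧ ∀ w ∈ t, G.Adj x w → w ∈ t.take 2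

/-- the invariant of the process -/
def Inv : List V → Prop
  | [] => True
  | [_] => True
  | b :: a :: t => out G (b :: a :: t) a ≤ 1 ∧
      (out G (b :: a :: t) b ≤ 1 ∨ out G (b :: a :: t) a = 0) ∧
      ∀ v ∈ t, out G (b :: a :: t) v = 0

lemma out_mono (c : V) (L : List V) (v : V) : out G (c :: L) v ≤ out G L v := by
  refine Set.ncard_le_ncard ?_ (Set.toFinite _)
  rintro w ⟨h1, h2⟩
  exact ⟨h1, fun h => h2 (List.mem_cons_of_mem _ h)⟩

lemma out_lt {c : V} {L : List V} {v : V} (h : G.Adj v c) (hc : c ∉ L) :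
    out G (c :: L) v < out G L v := by
  refine Set.ncard_lt_ncard ?_ (Set.toFinite _)
  constructor
  · rintro w ⟨h1, h2⟩
    exact ⟨h1, fun h => h2 (List.mem_cons_of_mem _ h)⟩
  · intro hsub
    have h1 : c ∈ {w | G.Adj v w ∧ w ∉ L} := ⟨h, hc⟩
    have h2 := hsub h1
    exact h2.2 List.mem_cons_self

lemma out_le_two (hdeg : ∀ v, (G.neighborSet v).ncard ≤ 2) (L : List V) (v : V) :
    out G L v ≤ 2 := by
  refine le_trans (Set.ncard_le_ncard ?_ (Set.toFinite _)) (hdeg v)
  rintro w ⟨h1, _⟩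
  exact h1

lemma out_le_one (hdeg : ∀ v, (G.neighborSet v).ncard ≤ 2) {L : List V} {v w : V}
    (h : G.Adj v w) (hw : w ∈ L) : out G L v ≤ 1 := by
  have h1 : out G L v < (G.neighborSet v).ncard := by
    refine Set.ncard_lt_ncard ?_ (Set.toFinite _)
    constructor
    · rintro x ⟨h1, _⟩
      exact h1
    · intro hsub
      have h2 : w ∈ G.neighborSet v := h
      exact (hsub h2).2 hw
  have := hdeg v
  omega

omit [Finite V] in
lemma out_pos {L : List V} {v : V} (h : out G L v ≠ 0) : ∃ c, G.Adj v c ∧ c ∉ L := by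
  obtain ⟨c, hc⟩ := Set.nonempty_of_ncard_ne_zero h
  exact ⟨c, hc.1, hc.2⟩

lemma mem_of_out {L : List V} {v : V} (h : out G L v = 0) {c : V} (hc : G.Adj v c) :
    c ∈ L := by
  by_contra hn
  have h1 := (Set.ncard_eq_zero (Set.toFinite _)).1 h
  have h2 : c ∈ {w | G.Adj v w ∧ w ∉ L} := ⟨hc, hn⟩
  rw [h1] at h2
  exact h2

lemma step (hdeg : ∀ v, (G.neighborSet v).ncard ≤ 2) (L : List V) (hO : Ok G L)
    (hI : Inv G L) {x : V} (hx : x ∉ L) : ∃ c, Ok G (c :: L) ∧ Inv G (c :: L) := by
  match L, hO, hI, hx with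
  | [], hO, hI, hx => exact ⟨x, ⟨trivial, hx, by simp⟩, trivial⟩
  | [b], hO, hI, hx =>
    by_cases h : out G [b] b = 0
    · refine ⟨x, ⟨hO, hx, by simp⟩, ?_⟩
      have h1 : out G [x, b] b = 0 := Nat.le_zero.1 (h ▸ out_mono G x [b] b)
      exact ⟨by omega, Or.inr h1, by simp⟩
    · obtain ⟨c, hc, hcL⟩ := out_pos G h
      refine ⟨c, ⟨hO, hcL, by simp⟩, ?_⟩
      refine ⟨out_le_one G hdeg hc (by simp), Or.inl ?_, by simp⟩
      exact out_le_one G hdeg hc.symm (by simp)
  | b :: a :: t, hO, hI, hx =>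
    obtain ⟨h1, h2, h3⟩ := hI
    have key : ∀ c, c ∉ (b :: a :: t) → Ok G (c :: b :: a :: t) := by
      intro c hc
      refine ⟨hO, hc, ?_⟩
      intro w hw hcw
      rcases List.mem_cons.1 hw with rfl | hw
      · simp
      rcases List.mem_cons.1 hw with rfl | hw
      · simp
      exact absurd (mem_of_out G (h3 w hw) hcw.symm) hc
    by_cases ha : out G (b :: a :: t) a = 0
    · by_cases hb : out G (b :: a :: t) b = 0
      · refine ⟨x, key x hx, ?_⟩
        have h4 : out G (x :: b :: a :: t) b = 0 := Nat.le_zero.1 (hb ▸ out_mono G x _ b)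
        refine ⟨by omega, Or.inr h4, ?_⟩
        intro v hv
        rcases List.mem_cons.1 hv with rfl | hv
        · exact Nat.le_zero.1 (ha ▸ out_mono G x _ v)
        · exact Nat.le_zero.1 ((h3 v hv) ▸ out_mono G x _ v)
      · obtain ⟨c, hc, hcL⟩ := out_pos G hb
        refine ⟨c, key c hcL, ?_⟩
        have h4 := out_lt G hc hcL
        have h5 := out_le_two G hdeg (b :: a :: t) b
        refine ⟨by omega, Or.inl (out_le_one G hdeg hc.symm (by simp)), ?_⟩
        intro v hv
        rcases List.mem_cons.1 hv with rfl | hv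
        · exact Nat.le_zero.1 (ha ▸ out_mono G c _ v)
        · exact Nat.le_zero.1 ((h3 v hv) ▸ out_mono G c _ v)
    · obtain ⟨c, hc, hcL⟩ := out_pos G ha
      refine ⟨c, key c hcL, ?_⟩
      have h4 := out_lt G hc hcL
      have h5 : out G (b :: a :: t) b ≤ 1 := h2.resolve_right ha
      have h6 := out_mono G c (b :: a :: t) b
      refine ⟨by omega, Or.inl (out_le_one G hdeg hc.symm (by simp)), ?_⟩
      intro v hv
      rcases List.mem_cons.1 hv with rfl | hv
      · omega
      · exact Nat.le_zero.1 ((h3 v hv) ▸ out_mono G c _ v)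

omit [Finite V] in
lemma Ok.nodup : ∀ {L : List V}, Ok G L → L.Nodup
  | [], _ => List.nodup_nil
  | _ :: _, h => List.nodup_cons.2 ⟨h.2.1, Ok.nodup h.1⟩

lemma exists_list (hdeg : ∀ v, (G.neighborSet v).ncard ≤ 2) (k : ℕ) (hk : k ≤ Nat.card V) :
    ∃ L : List V, L.length = k ∧ Ok G L ∧ Inv G L := by
  induction k with
  | zero => exact ⟨[], rfl, trivial, trivial⟩
  | succ k ih =>
    obtain ⟨L, hL, hO, hI⟩ := ih (by omega)
    have hx : ∃ x : V, x ∉ L := by
      by_contra hcon
      push Not at hcon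
      classical
      have := Fintype.ofFinite V
      have h1 : (Finset.univ : Finset V) ⊆ L.toFinset := fun v _ => by simpa using hcon v
      have h2 := Finset.card_le_card h1
      have h3 := L.toFinset_card_le
      rw [Finset.card_univ, ← Nat.card_eq_fintype_card] at h2
      omega
    obtain ⟨x, hx⟩ := hx
    obtain ⟨c, h1, h2⟩ := step G hdeg L hO hI hx
    exact ⟨c :: L, by simp [hL], h1, h2⟩

omit [Finite V] in
lemma dist_le [DecidableEq V] : ∀ (L : List V), Ok G L → ∀ u ∈ L, ∀ v ∈ L, G.Adj u v →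
    L.idxOf u ≤ L.idxOf v + 2
  | [], _, u, hu, _, _, _ => by simp at hu
  | x :: t, hO, u, hu, v, hv, h => by
    have hne : u ≠ v := h.ne
    by_cases hux : u = x
    · subst hux
      simp
    · have hu' : u ∈ t := by
        rcases List.mem_cons.1 hu with h1 | h1
        · exact absurd h1 hux
        · exact h1
      rw [List.idxOf_cons_ne _ (Ne.symm hux)]
      by_cases hvx : v = x
      · subst hvx
        have h1 := hO.2.2 u hu' h.symm
        have h2 : t.idxOf u < 2 := by
          rw [← List.take_append_drop 2 t, List.idxOf_append_of_mem h1]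
          have h3 := List.idxOf_lt_length_iff.2 h1
          have h4 : (t.take 2).length ≤ 2 := by simp
          omega
        omega
      · have hv' : v ∈ t := by
          rcases List.mem_cons.1 hv with h1 | h1
          · exact absurd h1 hvx
          · exact h1
        rw [List.idxOf_cons_ne _ (Ne.symm hvx)]
        have := dist_le t hO.1 u hu' v hv' h
        omega

end Order

lemma exists_order {n : ℕ} (G : SimpleGraph (Fin n))
    (hdeg : ∀ v, (G.neighborSet v).ncard ≤ 2) :
    ∃ f : Fin n → Fin n, Function.Injective f ∧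
      ∀ u v, G.Adj u v → (f u : ℕ) ≤ f v + 2 := by
  obtain ⟨L, hL, hO, _⟩ := exists_list G hdeg n (by simp)
  have hnd := Ok.nodup G hO
  have hall : ∀ v : Fin n, v ∈ L := by
    intro v
    have h1 : L.toFinset = Finset.univ := by
      apply Finset.eq_univ_of_card
      rw [List.toFinset_card_of_nodup hnd, hL]
      simp
    have h2 : v ∈ L.toFinset := by rw [h1]; exact Finset.mem_univ v
    simpa using h2
  refine ⟨fun v => ⟨L.idxOf v, (List.idxOf_lt_length_iff.2 (hall v)).trans_eq hL⟩,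
    ?_, ?_⟩
  · intro u v huv
    have h1 : L.idxOf u = L.idxOf v := by simpa using huv
    exact (List.idxOf_inj (hall u)).1 h1
  · intro u v huv
    exact dist_le G L hO u (hall u) v (hall v) huv

/-! ### The zigzag -/

/-- the points of the zigzag -/
noncomputable def pt (i : ℕ) : ℝ × ℝ := ((i : ℝ), ((i % 2 : ℕ) : ℝ))

lemma pt_inj {i j : ℕ} (h : pt i = pt j) : i = j := by
  have := congrArg Prod.fst h
  simpa [pt] using this

lemma seg_param {a b : ℕ} {q : ℝ × ℝ} (h : q ∈ segment ℝ (pt a) (pt b)) :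
    ∃ t : ℝ, 0 ≤ t ∧ t ≤ 1 ∧ q.1 = a + t * ((b : ℝ) - a) ∧
      q.2 = ((a % 2 : ℕ) : ℝ) + t * (((b % 2 : ℕ) : ℝ) - ((a % 2 : ℕ) : ℝ)) := by
  obtain ⟨s, t, hs, ht, hst, rfl⟩ := h
  refine ⟨t, ht, by linarith, ?_, ?_⟩
  · simp only [pt, Prod.fst_add, Prod.smul_fst, smul_eq_mul]
    have : s = 1 - t := by linarith
    rw [this]; ring
  · simp only [pt, Prod.snd_add, Prod.smul_snd, smul_eq_mul]
    have : s = 1 - t := by linarith
    rw [this]; ring

lemma seg_range {a b : ℕ} (hab : a < b) {q : ℝ × ℝ} (h : q ∈ segment ℝ (pt a) (pt b)) :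
    (a : ℝ) ≤ q.1 ∧ q.1 ≤ b ∧ (q.1 = a → q = pt a) ∧ (q.1 = b → q = pt b) := by
  obtain ⟨t, h0, h1, hx, hy⟩ := seg_param h
  have hab' : (0 : ℝ) < (b : ℝ) - a := by
    have : (a : ℝ) < b := by exact_mod_cast hab
    linarith
  refine ⟨?_, ?_, ?_, ?_⟩
  · rw [hx]; nlinarith
  · rw [hx]; nlinarith
  · intro h
    have ht : t = 0 := by
      have : t * ((b : ℝ) - a) = 0 := by linarith
      rcases mul_eq_zero.1 this with h | h
      · exact h
      · linarith
    subst ht
    ext
    · simp [hx, pt]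
    · simp [hy, pt]
  · intro h
    have ht : t = 1 := by
      have : (t - 1) * ((b : ℝ) - a) = 0 := by linarith
      rcases mul_eq_zero.1 this with h | h
      · linarith
      · linarith
    subst ht
    ext
    · simp [hx, pt]
    · simp [hy, pt]

lemma seg_one {a : ℕ} {q : ℝ × ℝ} (h : q ∈ segment ℝ (pt a) (pt (a + 1))) :
    (q.2 = ((a % 2 : ℕ) : ℝ) → q = pt a) ∧
      (q.2 = (((a + 1) % 2 : ℕ) : ℝ) → q = pt (a + 1)) := by
  obtain ⟨t, h0, h1, hx, hy⟩ := seg_param h
  have hd : (((a + 1) % 2 : ℕ) : ℝ) - ((a % 2 : ℕ) : ℝ) ≠ 0 := by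
    rcases Nat.mod_two_eq_zero_or_one a with h2 | h2
    · have h3 : (a + 1) % 2 = 1 := by omega
      rw [h2, h3]; norm_num
    · have h3 : (a + 1) % 2 = 0 := by omega
      rw [h2, h3]; norm_num
  constructor
  · intro h
    have ht : t = 0 := by
      have : t * ((((a + 1) % 2 : ℕ) : ℝ) - ((a % 2 : ℕ) : ℝ)) = 0 := by linarith
      exact (mul_eq_zero.1 this).resolve_right hd
    subst ht
    ext
    · simp [hx, pt]
    · simp [hy, pt]
  · intro h
    have ht : t = 1 := by
      have : (t - 1) * ((((a + 1) % 2 : ℕ) : ℝ) - ((a % 2 : ℕ) : ℝ)) = 0 := by linarith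
      have := (mul_eq_zero.1 this).resolve_right hd
      linarith
    subst ht
    ext
    · simp [hx, pt]
    · simp [hy, pt]

lemma seg_two {a : ℕ} {q : ℝ × ℝ} (h : q ∈ segment ℝ (pt a) (pt (a + 2))) :
    q.2 = ((a % 2 : ℕ) : ℝ) := by
  obtain ⟨t, h0, h1, hx, hy⟩ := seg_param h
  have h2 : (a + 2) % 2 = a % 2 := by omega
  rw [hy, h2]; ring

lemma nocross {a b c d : ℕ} (hab : a < b) (hb : b ≤ a + 2) (hcd : c < d) (hd : d ≤ c + 2)
    (hne : ¬ (a = c ∧ b = d)) {q : ℝ × ℝ} (h1 : q ∈ segment ℝ (pt a) (pt b))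
    (h2 : q ∈ segment ℝ (pt c) (pt d)) :
    ∃ w, (w = a ∨ w = b) ∧ (w = c ∨ w = d) ∧ q = pt w := by
  obtain ⟨r1, r2, r3, r4⟩ := seg_range hab h1
  obtain ⟨s1, s2, s3, s4⟩ := seg_range hcd h2
  by_cases hbc : b ≤ c
  · have hbc' : (b : ℝ) ≤ c := by exact_mod_cast hbc
    have h3 : q.1 = b := by linarith
    have h4 : (b : ℝ) = c := by linarith
    have h5 : b = c := by exact_mod_cast h4
    exact ⟨b, Or.inr rfl, Or.inl h5, r4 h3⟩
  by_cases hda : d ≤ a
  · have hda' : (d : ℝ) ≤ a := by exact_mod_cast hda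
    have h3 : q.1 = a := by linarith
    have h4 : (a : ℝ) = d := by linarith
    have h5 : a = d := by exact_mod_cast h4
    exact ⟨a, Or.inl rfl, Or.inr h5, r3 h3⟩
  have hb' : b = a + 1 ∨ b = a + 2 := by omega
  have hd' : d = c + 1 ∨ d = c + 2 := by omega
  rcases hb' with rfl | rfl
  · rcases hd' with rfl | rfl
    · exact absurd ⟨by omega, by omega⟩ hne
    · have h3 := seg_two h2
      have h4 := seg_one h1
      have h5 : a = c ∨ a = c + 1 := by omega
      rcases h5 with rfl | rfl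
      · exact ⟨a, Or.inl rfl, Or.inl rfl, h4.1 h3⟩
      · refine ⟨c + 2, Or.inr rfl, Or.inr rfl, ?_⟩
        have h6 : (c + 1 + 1) % 2 = c % 2 := by omega
        exact h4.2 (by rw [h3, h6])
  · rcases hd' with rfl | rfl
    · have h3 := seg_two h1
      have h4 := seg_one h2
      have h5 : c = a ∨ c = a + 1 := by omega
      rcases h5 with rfl | rfl
      · exact ⟨c, Or.inl rfl, Or.inl rfl, h4.1 h3⟩
      · refine ⟨a + 2, Or.inr rfl, Or.inr rfl, ?_⟩
        have h6 : (a + 1 + 1) % 2 = a % 2 := by omega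
        exact h4.2 (by rw [h3, h6])
    · have h3 := seg_two h1
      have h4 := seg_two h2
      have h5 : a % 2 = c % 2 := by
        have : ((a % 2 : ℕ) : ℝ) = ((c % 2 : ℕ) : ℝ) := by rw [← h3, ← h4]
        exact_mod_cast this
      omega

/-- the same for unordered pairs -/
lemma nocross' {a b c d : ℕ} (hab : a ≠ b) (hb : b ≤ a + 2) (ha : a ≤ b + 2) (hcd : c ≠ d)
    (hd : d ≤ c + 2) (hc : c ≤ d + 2) (hne : s(a, b) ≠ s(c, d)) {q : ℝ × ℝ}
    (h1 : q ∈ segment ℝ (pt a) (pt b)) (h2 : q ∈ segment ℝ (pt c) (pt d)) :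
    ∃ w, (w = a ∨ w = b) ∧ (w = c ∨ w = d) ∧ q = pt w := by
  have hne1 : ¬ (a = c ∧ b = d) := fun h => hne (by rw [h.1, h.2])
  have hne2 : ¬ (a = d ∧ b = c) := fun h => hne (by rw [h.1, h.2]; exact Sym2.eq_swap)
  rcases lt_or_gt_of_ne hab with hab' | hab'
  · rcases lt_or_gt_of_ne hcd with hcd' | hcd'
    · exact nocross hab' hb hcd' hd hne1 h1 h2
    · rw [segment_symm] at h2
      obtain ⟨w, h3, h4, h5⟩ := nocross hab' hb hcd' hc hne2 h1 h2
      exact ⟨w, h3, h4.symm, h5⟩
  · rw [segment_symm] at h1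
    rcases lt_or_gt_of_ne hcd with hcd' | hcd'
    · obtain ⟨w, h3, h4, h5⟩ := nocross hab' ha hcd' hd
        (fun h => hne2 ⟨h.2, h.1⟩) h1 h2
      exact ⟨w, h3.symm, h4, h5⟩
    · rw [segment_symm] at h2
      obtain ⟨w, h3, h4, h5⟩ := nocross hab' ha hcd' hc
        (fun h => hne1 ⟨h.2, h.1⟩) h1 h2
      exact ⟨w, h3.symm, h4.symm, h5⟩

/-! ### The universal geometric graph -/

/-- the square of the path -/
def band (n : ℕ) : SimpleGraph (Fin n) where
  Adj i j := i ≠ j ∧ (i : ℕ) ≤ j + 2 ∧ (j : ℕ) ≤ i + 2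
  symm := ⟨fun _ _ h => ⟨h.1.symm, h.2.2, h.2.1⟩⟩
  loopless := ⟨fun _ h => h.1 rfl⟩

/-- the points as an embedding -/
noncomputable def ptEmb (n : ℕ) : Fin n ↪ ℝ × ℝ :=
  ⟨fun i => pt i, fun _ _ h => Fin.ext (pt_inj h)⟩

/-- the vertices -/
noncomputable def zV (n : ℕ) : Finset (ℝ × ℝ) := Finset.univ.map (ptEmb n)

/-- the points as an embedding in the vertices -/
noncomputable def toV (n : ℕ) : Fin n ↪ zV n :=
  ⟨fun i => ⟨ptEmb n i, Finset.mem_map_of_mem _ (Finset.mem_univ i)⟩,
    fun _ _ h => (ptEmb n).injective (Subtype.ext_iff.1 h)⟩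

/-- the zigzag drawing of the square of the path, as a geometric graph -/
noncomputable def zig (n : ℕ) : GeomGraph := ⟨zV n, (band n).map (toV n)⟩

lemma band_edges (n : ℕ) : (band n).edgeSet.ncard ≤ 2 * n - 3 := by
  have h : ((Finset.Icc 1 (2 * n - 3) : Finset ℕ) : Set ℕ).ncard = 2 * n - 3 := by
    rw [Set.ncard_coe_finset]; simp
  rw [← h]
  refine Set.ncard_le_ncard_of_injOn
    (Sym2.lift ⟨fun a b : Fin n => (a : ℕ) + b, fun _ _ => add_comm _ _⟩) ?_ ?_
    (Finset.finite_toSet _)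
  · intro z hz
    induction z using Sym2.ind with
    | _ a b =>
      have h1 : (band n).Adj a b := hz
      obtain ⟨h2, h3, h4⟩ := h1
      have h5 : (a : ℕ) ≠ b := fun h => h2 (Fin.ext h)
      have := a.2
      have := b.2
      simp only [Sym2.lift_mk, Finset.coe_Icc, Set.mem_Icc]
      omega
  · intro z hz z' hz' hzz
    induction z using Sym2.ind with
    | _ a b =>
      induction z' using Sym2.ind with
      | _ c d =>
        obtain ⟨h2, h3, h4⟩ : (band n).Adj a b := hz
        obtain ⟨k2, k3, k4⟩ : (band n).Adj c d := hz'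
        have h5 : (a : ℕ) ≠ b := fun h => h2 (Fin.ext h)
        have k5 : (c : ℕ) ≠ d := fun h => k2 (Fin.ext h)
        simp only [Sym2.lift_mk] at hzz
        have h6 : ((a : ℕ) = c ∧ (b : ℕ) = d) ∨ ((a : ℕ) = d ∧ (b : ℕ) = c) := by omega
        rcases h6 with ⟨h7, h8⟩ | ⟨h7, h8⟩
        · rw [Fin.ext h7, Fin.ext h8]
        · rw [Fin.ext h7, Fin.ext h8]; exact Sym2.eq_swap

lemma zig_edges (n : ℕ) : (zig n).numEdges ≤ 2 * n - 3 := by
  refine le_trans ?_ (band_edges n)
  have h : (zig n).G.edgeSet = (toV n).sym2Map '' (band n).edgeSet :=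
    SimpleGraph.edgeSet_map (toV n) (band n)
  unfold GeomGraph.numEdges
  rw [h]
  exact Set.ncard_image_le (Set.toFinite _)

lemma embeds_zig {n : ℕ} (G : SimpleGraph (Fin n))
    (hdeg : ∀ v, (G.neighborSet v).ncard ≤ 2) : Embeds G (zig n) := by
  obtain ⟨f, hf, hadj⟩ := exists_order G hdeg
  refine ⟨fun v => toV n (f v), ?_, ?_, ?_⟩
  · intro a b hab
    have h1 : (band n).Adj (f a) (f b) :=
      ⟨fun h => hab.ne (hf h), hadj a b hab, hadj b a hab.symm⟩
    exact (SimpleGraph.map_adj_apply (f := toV n)).2 h1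
  · intro a b hab
    exact hf (Fin.ext (pt_inj hab))
  · intro a b c d hab hcd hne q h1 h2
    have e1 : (f a : ℕ) ≠ f b := fun h => hab.ne (hf (Fin.ext h))
    have e2 : (f c : ℕ) ≠ f d := fun h => hcd.ne (hf (Fin.ext h))
    have e3 : s((f a : ℕ), (f b : ℕ)) ≠ s((f c : ℕ), (f d : ℕ)) := by
      intro h
      apply hne
      rcases Sym2.eq_iff.1 h with ⟨h3, h4⟩ | ⟨h3, h4⟩
      · rw [hf (Fin.ext h3), hf (Fin.ext h4)]
      · rw [hf (Fin.ext h3), hf (Fin.ext h4)]; exact Sym2.eq_swap
    obtain ⟨w, hw1, hw2, hw3⟩ := nocross' e1 (hadj b a hab.symm) (hadj a b hab) e2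
      (hadj d c hcd.symm) (hadj c d hcd) e3 h1 h2
    rcases hw1 with rfl | rfl
    · refine ⟨a, Or.inl rfl, ?_, hw3⟩
      rcases hw2 with h | h
      · exact Or.inl (hf (Fin.ext h))
      · exact Or.inr (hf (Fin.ext h))
    · refine ⟨b, Or.inr rfl, ?_, hw3⟩
      rcases hw2 with h | h
      · exact Or.inl (hf (Fin.ext h))
      · exact Or.inr (hf (Fin.ext h))

lemma universal_zig {Δ n : ℕ} (hΔ : Δ ≤ 2) : Universal Δ n (zig n) :=
  fun G hG => embeds_zig G (fun v => le_trans (hG.2 v) hΔ)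

lemma e_le {Δ n : ℕ} (hΔ : Δ ≤ 2) : e Δ n ≤ 2 * n - 3 :=
  le_trans (Nat.sInf_le ⟨zig n, universal_zig hΔ, rfl⟩) (zig_edges n)

/-- a graph of small degree has at most `e` edges -/
lemma le_e {Δ n : ℕ} (hΔ : Δ ≤ 2) (G : SimpleGraph (Fin n))
    (hdeg : ∀ v, (G.neighborSet v).ncard ≤ Δ) : G.edgeSet.ncard ≤ e Δ n := by
  have hmem : e Δ n ∈ {m : ℕ | ∃ U : GeomGraph, Universal Δ n U ∧ U.numEdges = m} :=
    Nat.sInf_mem ⟨_, zig n, universal_zig hΔ, rfl⟩
  obtain ⟨U, hU, hm⟩ := hmem
  rw [← hm]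
  have hpl : PlanarDeg Δ n G := by
    obtain ⟨φ, _, hφ⟩ := embeds_zig G (fun v => le_trans (hdeg v) hΔ)
    exact ⟨⟨_, hφ⟩, hdeg⟩
  obtain ⟨φ, hφ, hinj, _⟩ := hU G hpl
  have hinj' : Function.Injective φ := fun a b h => hinj (by simp [h])
  refine Set.ncard_le_ncard_of_injOn (Sym2.map φ) ?_ ?_ (Set.toFinite _)
  · intro z hz
    induction z using Sym2.ind with
    | _ a b => exact hφ a b hz
  · exact (Sym2.map.injective hinj').injOn

lemma cyc_edges {n : ℕ} (hn : 3 ≤ n) :
    n ≤ (SimpleGraph.cycleGraph n).edgeSet.ncard ∧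
      ∀ v, ((SimpleGraph.cycleGraph n).neighborSet v).ncard ≤ 2 := by
  obtain ⟨m, rfl⟩ := Nat.exists_eq_add_of_le' hn
  have hdeg : ∀ v : Fin (m + 3), (SimpleGraph.cycleGraph (m + 3)).degree v = 2 :=
    fun v => SimpleGraph.cycleGraph_degree_three_le
  constructor
  · have h2 := SimpleGraph.sum_degrees_eq_twice_card_edges (SimpleGraph.cycleGraph (m + 3))
    simp only [hdeg] at h2
    rw [Set.ncard_eq_toFinset_card']
    have h3 : (SimpleGraph.cycleGraph (m + 3)).edgeSet.toFinset
        = (SimpleGraph.cycleGraph (m + 3)).edgeFinset := rfl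
    rw [h3]
    simp at h2
    omega
  · intro v
    have := hdeg v
    rw [← SimpleGraph.card_neighborSet_eq_degree] at this
    rw [Set.ncard_eq_toFinset_card', Set.toFinset_card]
    exact this.le

lemma cyc_adj {n : ℕ} {u v : Fin n} (h : (SimpleGraph.cycleGraph n).Adj u v) :
    (u : ℕ) = v + 1 ∨ (v : ℕ) = u + 1 ∨ ((u : ℕ) = 0 ∧ (v : ℕ) + 1 = n) ∨
      ((v : ℕ) = 0 ∧ (u : ℕ) + 1 = n) := by
  rw [SimpleGraph.cycleGraph_adj'] at h
  have hu := u.2
  have hv := v.2
  rcases h with h | h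
  · by_cases hle : v ≤ u
    · rw [Fin.sub_val_of_le hle] at h
      have : (v : ℕ) ≤ u := hle
      omega
    · rw [Fin.coe_sub_iff_lt.2 (not_le.1 hle)] at h
      have : (u : ℕ) < v := not_le.1 hle
      omega
  · by_cases hle : u ≤ v
    · rw [Fin.sub_val_of_le hle] at h
      have : (u : ℕ) ≤ v := hle
      omega
    · rw [Fin.coe_sub_iff_lt.2 (not_le.1 hle)] at h
      have : (v : ℕ) < u := not_le.1 hle
      omega

lemma cyc_no_triangle {n : ℕ} (hn : 4 ≤ n) {a b c : Fin n}
    (h1 : (SimpleGraph.cycleGraph n).Adj a b) (h2 : (SimpleGraph.cycleGraph n).Adj b c)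
    (h3 : (SimpleGraph.cycleGraph n).Adj c a) : False := by
  have e1 := cyc_adj h1
  have e2 := cyc_adj h2
  have e3 := cyc_adj h3
  omega

/-- disjoint triangles -/
def tri (n : ℕ) : SimpleGraph (Fin n) where
  Adj i j := i ≠ j ∧ (i : ℕ) / 3 = (j : ℕ) / 3 ∧ (i : ℕ) / 3 < n / 3
  symm := ⟨fun _ _ h => ⟨h.1.symm, h.2.1.symm, by rw [← h.2.1]; exact h.2.2⟩⟩
  loopless := ⟨fun _ h => h.1 rfl⟩

lemma card_two (m : ℕ) :
    ((({3 * (m / 3), 3 * (m / 3) + 1, 3 * (m / 3) + 2} : Finset ℕ).erase m : Finset ℕ) :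
      Set ℕ).ncard ≤ 2 := by
  rw [Set.ncard_coe_finset, Finset.card_erase_of_mem]
  · have := Finset.card_le_three (a := 3 * (m / 3)) (b := 3 * (m / 3) + 1)
      (c := 3 * (m / 3) + 2)
    omega
  · simp only [Finset.mem_insert, Finset.mem_singleton]
    omega

lemma tri_deg (n : ℕ) (v : Fin n) : ((tri n).neighborSet v).ncard ≤ 2 := by
  obtain ⟨m, hm⟩ : ∃ m : ℕ, m = (v : ℕ) := ⟨_, rfl⟩
  refine le_trans (Set.ncard_le_ncard_of_injOn (fun x : Fin n => (x : ℕ)) ?_
    (fun x _ y _ hxy => Fin.ext hxy) (Finset.finite_toSet _)) (card_two m)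
  intro x hx
  obtain ⟨h1, h2, _⟩ : (tri n).Adj v x := hx
  have h5 : (x : ℕ) ≠ m := fun h => h1 (Fin.ext (by rw [← hm, h]))
  rw [← hm] at h2
  refine Finset.mem_coe.2 (Finset.mem_erase.2 ⟨h5, ?_⟩)
  simp only [Finset.mem_insert, Finset.mem_singleton]
  omega

lemma le_e_two {n : ℕ} (hn : 4 ≤ n) : n + n / 3 ≤ e 2 n := by
  classical
  have hmem : e 2 n ∈ {m : ℕ | ∃ U : GeomGraph, Universal 2 n U ∧ U.numEdges = m} :=
    Nat.sInf_mem ⟨_, zig n, universal_zig (le_refl 2), rfl⟩
  obtain ⟨U, hU, hm⟩ := hmem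
  rw [← hm]
  obtain ⟨hc1, hc2⟩ := cyc_edges (n := n) (by omega)
  have hpl : ∀ G : SimpleGraph (Fin n), (∀ v, (G.neighborSet v).ncard ≤ 2) →
      PlanarDeg 2 n G := by
    intro G hdeg
    obtain ⟨φ, _, hφ⟩ := embeds_zig G hdeg
    exact ⟨⟨_, hφ⟩, hdeg⟩
  obtain ⟨φ, hφ, hinj, _⟩ := hU _ (hpl (SimpleGraph.cycleGraph n) hc2)
  obtain ⟨ψ, hψ, hinj2, _⟩ := hU _ (hpl (tri n) (tri_deg n))
  have hi1 : Function.Injective φ := fun a b h => hinj (by simp [h])
  have hi2 : Function.Injective ψ := fun a b h => hinj2 (by simp [h])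
  set E1 : Set (Sym2 U.V) := Sym2.map φ '' (SimpleGraph.cycleGraph n).edgeSet with hE1
  have hE1c : n ≤ E1.ncard := by
    rw [hE1, Set.ncard_image_of_injective _ (Sym2.map.injective hi1)]
    exact hc1
  have hE1s : E1 ⊆ U.G.edgeSet := by
    rintro _ ⟨z, hz, rfl⟩
    induction z using Sym2.ind with
    | _ a b => exact hφ a b hz
  -- an edge of E1 comes from an edge of the cycle
  have hback : ∀ p q : U.V, s(p, q) ∈ E1 → ∃ a b, (SimpleGraph.cycleGraph n).Adj a b ∧
      φ a = p ∧ φ b = q := by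
    rintro p q ⟨z, hz, hzz⟩
    induction z using Sym2.ind with
    | _ a b =>
      have hz' : (SimpleGraph.cycleGraph n).Adj a b := hz
      rw [Sym2.map_mk] at hzz
      rcases Sym2.eq_iff.1 hzz with ⟨h1, h2⟩ | ⟨h1, h2⟩
      · exact ⟨a, b, hz', h1, h2⟩
      · exact ⟨b, a, hz'.symm, h2, h1⟩
  have hch : ∀ j : Fin (n / 3), ∃ x y : Fin n, (x : ℕ) / 3 = j ∧ (y : ℕ) / 3 = j ∧ x ≠ y ∧
      s(ψ x, ψ y) ∉ E1 := by
    intro j
    have hj := j.2
    set a : Fin n := ⟨3 * j, by omega⟩ with ha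
    set b : Fin n := ⟨3 * j + 1, by omega⟩ with hb
    set c : Fin n := ⟨3 * j + 2, by omega⟩ with hc
    have ea : (a : ℕ) / 3 = j := by simp only [ha]; omega
    have eb : (b : ℕ) / 3 = j := by simp only [hb]; omega
    have ec : (c : ℕ) / 3 = j := by simp only [hc]; omega
    have nab : a ≠ b := fun h => by have := congrArg Fin.val h; simp only [ha, hb] at this; omega
    have nbc : b ≠ c := fun h => by have := congrArg Fin.val h; simp only [hc, hb] at this; omega
    have nca : c ≠ a := fun h => by have := congrArg Fin.val h; simp only [ha, hc] at this; omega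
    by_contra hcon
    push Not at hcon
    obtain ⟨a1, b1, k1, k2, k3⟩ := hback _ _ (hcon a b ea eb nab)
    obtain ⟨b2, c2, l1, l2, l3⟩ := hback _ _ (hcon b c eb ec nbc)
    obtain ⟨c3, a3, m1, m2, m3⟩ := hback _ _ (hcon c a ec ea nca)
    have f1 : b2 = b1 := hi1 (by rw [l2, k3])
    have f2 : c3 = c2 := hi1 (by rw [m2, l3])
    have f3 : a3 = a1 := hi1 (by rw [m3, k2])
    subst f1 f2 f3
    exact cyc_no_triangle hn k1 l1 m1
  choose x y hx hy hxy hnot using hch
  set E2 : Set (Sym2 U.V) := Set.range (fun j => s(ψ (x j), ψ (y j))) with hE2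
  have hE2c : E2.ncard = n / 3 := by
    rw [hE2, ← Set.image_univ, Set.ncard_image_of_injective, Set.ncard_univ]
    · simp
    · intro j j' h
      rcases Sym2.eq_iff.1 h with ⟨h1, _⟩ | ⟨h1, _⟩
      · have := hi2 h1
        exact Fin.ext (by rw [← hx j, ← hx j', this])
      · have := hi2 h1
        exact Fin.ext (by rw [← hx j, ← hy j', this])
  have hE2s : E2 ⊆ U.G.edgeSet := by
    rintro _ ⟨j, rfl⟩
    exact hψ _ _ ⟨hxy j, by rw [hx, hy], by rw [hx]; exact j.2⟩
  have hdis : Disjoint E1 E2 := by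
    rw [Set.disjoint_left]
    rintro z hz ⟨j, rfl⟩
    exact hnot j hz
  have h9 : (E1 ∪ E2).ncard = E1.ncard + E2.ncard :=
    Set.ncard_union_eq hdis (Set.toFinite _) (Set.toFinite _)
  have h10 : (E1 ∪ E2).ncard ≤ U.numEdges :=
    Set.ncard_le_ncard (Set.union_subset hE1s hE2s) (Set.toFinite _)
  omega

/-- the matching of the consecutive pairs -/
def pairs (n : ℕ) : SimpleGraph (Fin n) where
  Adj i j := i ≠ j ∧ (i : ℕ) / 2 = (j : ℕ) / 2
  symm := ⟨fun _ _ h => ⟨h.1.symm, h.2.symm⟩⟩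
  loopless := ⟨fun _ h => h.1 rfl⟩

lemma le_e_one (n : ℕ) : n / 2 ≤ e 1 n := by
  have h1 := le_e (by norm_num : 1 ≤ 2) (pairs n) (by
    intro v
    refine (Set.ncard_le_one (Set.toFinite _)).2 ?_
    intro a ha b hb
    obtain ⟨h1, h2⟩ : (pairs n).Adj v a := ha
    obtain ⟨h3, h4⟩ : (pairs n).Adj v b := hb
    have h5 : (v : ℕ) ≠ a := fun h => h1 (Fin.ext h)
    have h6 : (v : ℕ) ≠ b := fun h => h3 (Fin.ext h)
    exact Fin.ext (by omega))
  refine le_trans ?_ h1
  have h2 : (Set.univ : Set (Fin (n / 2))).ncard = n / 2 := by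
    rw [Set.ncard_univ]; simp
  rw [← h2]
  refine Set.ncard_le_ncard_of_injOn
    (fun i : Fin (n / 2) => s((⟨2 * i, by omega⟩ : Fin n), (⟨2 * i + 1, by omega⟩ : Fin n)))
    ?_ ?_ (Set.toFinite _)
  · intro i _
    have h3 : (pairs n).Adj ⟨2 * i, by omega⟩ ⟨2 * i + 1, by omega⟩ := by
      refine ⟨fun h => ?_, ?_⟩
      · have := congrArg Fin.val h
        simp at this
      · simp only
        omega
    exact h3
  · intro i _ j _ h
    rcases Sym2.eq_iff.1 h with ⟨h3, _⟩ | ⟨h3, _⟩
    · have := congrArg Fin.val h3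
      simp only at this
      exact Fin.ext (by omega)
    · have := congrArg Fin.val h3
      simp only at this
      omega


/-! ### The exact value for matchings -/

lemma order_one (k : ℕ) : ∀ (V : Type) [Finite V] (G : SimpleGraph V),
    Nat.card V = k → (∀ v, (G.neighborSet v).ncard ≤ 1) →
    ∃ f : V → ℕ, Function.Injective f ∧ (∀ v, f v < k) ∧
      ∀ u v, G.Adj u v → f u / 2 = f v / 2 := by
  induction k using Nat.strong_induction_on with
  | _ k ih =>
    intro V _ G hcard hdeg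
    classical
    have := Fintype.ofFinite V
    by_cases hex : ∃ a b, G.Adj a b
    · obtain ⟨a, b, hab⟩ := hex
      have hne : a ≠ b := hab.ne
      have hcard2 : Nat.card {x : V // x ≠ a ∧ x ≠ b} + 2 = k := by
        rw [← hcard, Nat.card_eq_fintype_card, Nat.card_eq_fintype_card,
          Fintype.card_subtype]
        have h1 : (Finset.univ.filter (fun x : V => x ≠ a ∧ x ≠ b))
            = (Finset.univ.erase a).erase b := by
          ext x; simp [and_comm]
        rw [h1, Finset.card_erase_of_mem, Finset.card_erase_of_mem (Finset.mem_univ a),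
          Finset.card_univ]
        · have : 2 ≤ Fintype.card V := by
            have h2 := Finset.card_le_univ ({a, b} : Finset V)
            rw [Finset.card_pair hne] at h2
            exact h2
          omega
        · simp [Ne.symm hne]
      have hdeg2 : ∀ v : {x : V // x ≠ a ∧ x ≠ b},
          ((G.comap (Subtype.val : {x : V // x ≠ a ∧ x ≠ b} → V)).neighborSet v).ncard ≤ 1 := by
        intro v
        refine le_trans (Set.ncard_le_ncard_of_injOn Subtype.val ?_
          Subtype.val_injective.injOn (Set.toFinite _)) (hdeg v)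
        intro w hw
        exact hw
      obtain ⟨f, hf1, hf2, hf3⟩ := ih _ (by omega) {x : V // x ≠ a ∧ x ≠ b}
        (G.comap Subtype.val) rfl hdeg2
      have huniq : ∀ u v w, G.Adj u v → G.Adj u w → v = w := fun u v w h1 h2 =>
        (Set.ncard_le_one (Set.toFinite _)).1 (hdeg u) v h1 w h2
      refine ⟨fun x => if x = a then 0 else if x = b then 1 else
        (if h : x ≠ a ∧ x ≠ b then f ⟨x, h⟩ + 2 else 0), ?_, ?_, ?_⟩
      · intro x y hxy
        by_cases xa : x = a
        · by_cases ya : y = a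
          · rw [xa, ya]
          · by_cases yb : y = b
            · simp [xa, yb, Ne.symm hne] at hxy
            · simp [xa, ya, yb] at hxy
        · by_cases xb : x = b
          · by_cases ya : y = a
            · simp [xb, ya, Ne.symm hne] at hxy
            · by_cases yb : y = b
              · rw [xb, yb]
              · simp only [if_neg xa, if_pos xb, if_neg ya, if_neg yb, dif_pos (And.intro ya yb)]
                  at hxy
                omega
          · by_cases ya : y = a
            · simp [xa, xb, ya] at hxy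
            · by_cases yb : y = b
              · simp only [if_neg xa, if_neg xb, if_neg ya, if_pos yb,
                  dif_pos (And.intro xa xb)] at hxy
                omega
              · simp only [if_neg xa, if_neg xb, if_neg ya, if_neg yb,
                  dif_pos (And.intro xa xb), dif_pos (And.intro ya yb)] at hxy
                have := hf1 (Nat.add_right_cancel hxy)
                exact congrArg Subtype.val this
      · intro x
        by_cases xa : x = a
        · simp only [if_pos xa]; omega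
        · by_cases xb : x = b
          · simp only [if_neg xa, if_pos xb]; omega
          · simp only [if_neg xa, if_neg xb, dif_pos (And.intro xa xb)]
            have := hf2 ⟨x, ⟨xa, xb⟩⟩
            omega
      · intro u v huv
        by_cases ua : u = a
        · subst ua
          have hvb : v = b := huniq _ _ _ huv hab
          subst hvb
          simp [Ne.symm hne]
        · by_cases ub : u = b
          · subst ub
            have hva : v = a := huniq _ _ _ huv hab.symm
            subst hva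
            simp [ua]
          · have va : v ≠ a := by
              rintro rfl
              exact ub (huniq _ _ _ huv.symm hab)
            have vb : v ≠ b := by
              rintro rfl
              exact ua (huniq _ _ _ huv.symm hab.symm)
            simp only [if_neg ua, if_neg ub, if_neg va, if_neg vb,
              dif_pos (And.intro ua ub), dif_pos (And.intro va vb)]
            have := hf3 ⟨u, ⟨ua, ub⟩⟩ ⟨v, ⟨va, vb⟩⟩ huv
            omega
    · push Not at hex
      refine ⟨fun v => Finite.equivFin V v, ?_, ?_, ?_⟩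
      · intro x y hxy
        exact (Finite.equivFin V).injective (Fin.ext hxy)
      · intro v
        rw [← hcard]
        exact (Finite.equivFin V v).2
      · intro u v huv
        exact absurd huv (hex u v)

/-- the segments at the positions `2 k`, `2 k + 1` -/
noncomputable def zig1 (n : ℕ) : GeomGraph := ⟨zV n, (pairs n).map (toV n)⟩

lemma zig1_edges (n : ℕ) : (zig1 n).numEdges ≤ n / 2 := by
  have h : (zig1 n).G.edgeSet = (toV n).sym2Map '' (pairs n).edgeSet :=
    SimpleGraph.edgeSet_map (toV n) (pairs n)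
  unfold GeomGraph.numEdges
  rw [h]
  refine le_trans (Set.ncard_image_le (Set.toFinite _)) ?_
  have h2 : ((Finset.range (n / 2) : Finset ℕ) : Set ℕ).ncard = n / 2 := by
    rw [Set.ncard_coe_finset]; simp
  have h4 : (pairs n).edgeSet.ncard ≤ ((Finset.range (n / 2) : Finset ℕ) : Set ℕ).ncard := by
    refine Set.ncard_le_ncard_of_injOn
      (Sym2.lift ⟨fun a b : Fin n => ((a : ℕ) + b) / 4, fun a b => by
        show ((a : ℕ) + b) / 4 = ((b : ℕ) + a) / 4
        rw [add_comm]⟩) ?_ ?_
      (Finset.finite_toSet _)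
    · intro z hz
      induction z using Sym2.ind with
      | _ a b =>
        obtain ⟨h5, h6⟩ : (pairs n).Adj a b := hz
        have h7 : (a : ℕ) ≠ b := fun h => h5 (Fin.ext h)
        have := a.2
        have := b.2
        simp only [Sym2.lift_mk, Finset.coe_range, Set.mem_Iio]
        omega
    · intro z hz z' hz' hzz
      induction z using Sym2.ind with
      | _ a b =>
        induction z' using Sym2.ind with
        | _ c d =>
          obtain ⟨h5, h6⟩ : (pairs n).Adj a b := hz
          obtain ⟨k5, k6⟩ : (pairs n).Adj c d := hz'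
          have h7 : (a : ℕ) ≠ b := fun h => h5 (Fin.ext h)
          have k7 : (c : ℕ) ≠ d := fun h => k5 (Fin.ext h)
          simp only [Sym2.lift_mk] at hzz
          have h8 : ((a : ℕ) = c ∧ (b : ℕ) = d) ∨ ((a : ℕ) = d ∧ (b : ℕ) = c) := by omega
          rcases h8 with ⟨h9, h10⟩ | ⟨h9, h10⟩
          · rw [Fin.ext h9, Fin.ext h10]
          · rw [Fin.ext h9, Fin.ext h10]; exact Sym2.eq_swap
  omega

lemma universal_zig1 (n : ℕ) : Universal 1 n (zig1 n) := by
  intro G hG
  obtain ⟨f, hf1, hf2, hf3⟩ := order_one n (Fin n) G (by simp) hG.2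
  have hadj : ∀ u v, G.Adj u v → f u ≤ f v + 2 := fun u v h => by
    have := hf3 u v h
    omega
  refine ⟨fun v => toV n ⟨f v, hf2 v⟩, ?_, ?_, ?_⟩
  · intro a b hab
    have h1 : (pairs n).Adj ⟨f a, hf2 a⟩ ⟨f b, hf2 b⟩ :=
      ⟨fun h => hab.ne (hf1 (congrArg Fin.val h)), hf3 a b hab⟩
    exact (SimpleGraph.map_adj_apply (f := toV n)).2 h1
  · intro a b hab
    exact hf1 (pt_inj hab)
  · intro a b c d hab hcd hne q h1 h2
    have e1 : f a ≠ f b := fun h => hab.ne (hf1 h)
    have e2 : f c ≠ f d := fun h => hcd.ne (hf1 h)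
    have e3 : s(f a, f b) ≠ s(f c, f d) := by
      intro h
      apply hne
      rcases Sym2.eq_iff.1 h with ⟨h3, h4⟩ | ⟨h3, h4⟩
      · rw [hf1 h3, hf1 h4]
      · rw [hf1 h3, hf1 h4]; exact Sym2.eq_swap
    obtain ⟨w, hw1, hw2, hw3⟩ := nocross' e1 (hadj b a hab.symm) (hadj a b hab) e2
      (hadj d c hcd.symm) (hadj c d hcd) e3 h1 h2
    rcases hw1 with rfl | rfl
    · refine ⟨a, Or.inl rfl, ?_, hw3⟩
      rcases hw2 with h | h
      · exact Or.inl (hf1 h)
      · exact Or.inr (hf1 h)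
    · refine ⟨b, Or.inr rfl, ?_, hw3⟩
      rcases hw2 with h | h
      · exact Or.inl (hf1 h)
      · exact Or.inr (hf1 h)

/-- The least number of edges of a geometric graph universal for the planar graphs on `n`
vertices of maximum degree at most `Δ`: it is exactly `⌊n / 2⌋` for `Δ = 1`, and it lies
between `n + ⌊n / 3⌋` and `2 n - 3` for `Δ = 2` and `n ≥ 4`. -/
theorem result : (∀ n, e 1 n = n / 2) ∧
    ∀ n, 4 ≤ n → n + n / 3 ≤ e 2 n ∧ e 2 n ≤ 2 * n - 3 := by
  refine ⟨fun n => le_antisymm ?_ (le_e_one n), fun n hn => ⟨le_e_two hn, e_le (le_refl 2)⟩⟩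
  exact le_trans (Nat.sInf_le ⟨zig1 n, universal_zig1 n, rfl⟩) (zig1_edges n)

end Pool.Agent.Results.MP_c611ff_co.MaxDegreeTwo
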